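import Pool.Agent.H343.AN.StE

set_option autoImplicit false
set_option linter.unusedSectionVars false

/-! # AN-C1 : contraction away from the antipodes (upstairs) -/

namespace Pool.Agent.H364.AN

open Pool.Agent.TH68 Pool.Agent.Helper97.Hyp Pool.Agent.H343.AN

theorem c1 : ToolB → S_c1 := by
  intro TB Γ _ W 𝒜 _ Y R hρ o u v z w m r t hr0 hr hm hou hov huv hz hw hzw h1 h2 h3 h4 h5
  have hδ := Y.hδ
  have hθ := Y.hθ
  have hρ' : 1000000 * Y.θ ≤ R.ρ := by
    have : (10 : ℝ) ^ 6 = 1000000 := by norm_num
    rw [this] at hρ
    exact hρ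
  by_cases hm1 : m = 1
  · refine ⟨1, R.N.one_mem, ?_⟩
    rw [one_smul]
    rw [hm1, one_smul] at huv
    rcases exc_split Y.hyp o v u w with h | h
    · rw [hw, zero_add] at h
      have := order_close Y.hyp (a := 2 * Y.δ) (by rw [hz]; linarith) h
      rw [hzw, sub_self, abs_zero] at this
      linarith
    · exfalso
      rw [hw] at h
      unfold exc at h
      have := dist_nonneg (x := u) (y := w)
      linarith
  · refine ⟨m, hm, ?_⟩
    obtain ⟨B, g, hg, hg1, hg2, hg3⟩ := TB.wind Y R hm hm1 o
    have hS := Y.Sne B
    have hmv : Red R.N (m • o) (m • v) := hov.smul m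
    have k1 := TB.redpd Y R hρ B (le_refl (0 : ℝ)) (Redu.of_red hou (le_refl _))
    have k2 := TB.redpd Y R hρ B (le_refl (0 : ℝ)) (Redu.of_red hmv (le_refl _))
    have k3 := pd_le_dist hS u (m • v)
    have k4 := pd_tri hS o u (m • o)
    have k5 := pd_tri hS u (m • v) (m • o)
    rw [pd_symm hS (m • v) (m • o)] at k5
    obtain ⟨a, ha⟩ := Y.proj B u
    obtain ⟨b, hb⟩ := Y.proj B (m • v)
    obtain ⟨a₀, ha₀⟩ := Y.proj B o
    obtain ⟨b₀, hb₀⟩ := Y.proj B (m • o)
    have k6 : t < dist u a := h5 B (by linarith) a ha.1
    have k7 : t < dist u b := h5 B (by linarith) b hb.1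
    have k8 : pd (Y.S B) u (m • v) ≤ 3 * Y.θ := by
      by_contra hc
      push Not at hc
      have := (TB.near Y B ha hb hc).1
      have := dist_nonneg (x := m • v) (y := b)
      linarith
    have k9 : dist a b ≤ 4 * Y.θ := by
      have := le_pd_of_proj ha hb
      linarith
    have k10 : exc o u a ≤ 4 * Y.θ := (TB.near Y B ha₀ ha (by linarith)).2.2
    have k11 : exc (m • o) (m • v) b ≤ 4 * Y.θ := (TB.near Y B hb₀ hb (by linarith)).2.2
    have k12 : exc a u z ≤ 2 * Y.δ := by
      rcases exc_split Y.hyp o u a z with h | h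
      · exfalso
        have := dist_nonneg (x := z) (y := a)
        unfold exc at h k10 hz
        rw [dist_comm a u] at k10
        linarith
      · rw [hz, zero_add] at h
        exact h
    have hmw : exc (m • o) (m • v) (m • w) = 0 := by rw [exc_smul]; exact hw
    have e1 : dist (m • o) (m • v) = dist o v := dist_smul _ _ _
    have e2 : dist (m • o) (m • w) = dist o w := dist_smul _ _ _
    have e3 : dist (m • w) (m • v) = dist w v := dist_smul _ _ _
    have k13 : exc b (m • v) (m • w) ≤ 2 * Y.δ := by
      rcases exc_split Y.hyp (m • o) (m • v) b (m • w) with h | h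
      · exfalso
        have := dist_nonneg (x := m • w) (y := b)
        have t1 := dist_triangle u (m • v) b
        unfold exc at h k11 hmw
        rw [dist_comm b (m • v)] at k11
        linarith
      · rw [hmw, zero_add] at h
        exact h
    have k14 : exc a (m • v) (m • w) ≤ 10 * Y.θ := by
      have := exc_move_left b a (m • v) (m • w)
      rw [dist_comm b a] at this
      linarith
    have k15 : exc a u (m • w) ≤ 12 * Y.θ := by
      rcases exc_split Y.hyp a (m • v) u (m • w) with h | h
      · linarith
      · exfalso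
        have := dist_nonneg (x := u) (y := m • w)
        unfold exc at h k14
        rw [e3] at h k14
        linarith
    have k16 := order_close Y.hyp (a := 12 * Y.θ) (show exc a u z ≤ 12 * Y.θ by linarith) k15
    -- minimality
    have k17 : dist o u ≤ dist (m • o) u := by
      have := hou m⁻¹ (R.N.inv_mem hm)
      rwa [← dist_smul m o (m⁻¹ • u), smul_inv_smul] at this
    have k18 : dist o v ≤ dist o (m • v) := hov m hm
    have t2 := dist_triangle4 (m • o) b a u
    have t3 := dist_triangle4 o a b (m • v)
    have t4 := dist_triangle o a z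
    have t5 := dist_triangle (m • o) b (m • w)
    have t6 := dist_triangle a b (m • w)
    have t7 := dist_triangle b a (m • w)
    rw [dist_comm b a] at t2 t7
    unfold exc at k10 k11 k12 k13 hz hw hmw
    rw [e1] at k11 hmw
    rw [e3] at k13 hmw
    rw [e2] at hmw t5
    have k19 : |dist a z - dist a (m • w)| ≤ 18 * Y.θ := by
      rw [abs_le]
      constructor <;> linarith
    linarith

end Pool.Agent.H364.AN
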